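import Pool.Agent.H1.NV.D

/-!
Second hand for ROW NV/Vf: `antis`.
-/

set_option autoImplicit false

namespace NV1

open Complex Set Filter Topology MeasureTheory EW1 EX1 LD1
open scoped ComplexConjugate ContDiff Real

/-- the power series `∑ f_n u^(n+1)`. -/
noncomputable def VfL_P (f : ℕ → ℂ) (u : ℂ) : ℂ := ∑' n : ℕ, f n * u ^ (n + 1)

theorem VfL_norm_sum {f : ℕ → ℂ} {t C s : ℝ} (h : ∀ n, ‖f n‖ * t ^ n ≤ C) (hs : 0 ≤ s)
    (hst : s < t) : Summable (fun n : ℕ => ‖f n‖ * s ^ (n + 1)) := by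
  have ht : 0 < t := hs.trans_lt hst
  have h1 : Summable (fun n : ℕ => C * s * (s / t) ^ n) :=
    (summable_geometric_of_lt_one (by positivity) ((div_lt_one ht).mpr hst)).mul_left _
  refine Summable.of_nonneg_of_le (fun n => by positivity) (fun n => ?_) h1
  calc ‖f n‖ * s ^ (n + 1) = (‖f n‖ * t ^ n) * (s * (s / t) ^ n) := by
        rw [div_pow, pow_succ]
        field_simp
    _ ≤ C * (s * (s / t) ^ n) := by
        refine mul_le_mul_of_nonneg_right (h n) (by positivity)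
    _ = C * s * (s / t) ^ n := by ring

theorem VfL_P_sum {f : ℕ → ℂ} {t C : ℝ} (h : ∀ n, ‖f n‖ * t ^ n ≤ C) {u : ℂ} (hu : ‖u‖ < t) :
    Summable (fun n : ℕ => f n * u ^ (n + 1)) := by
  refine Summable.of_norm ?_
  have h1 := VfL_norm_sum h (norm_nonneg u) hu
  refine h1.congr fun n => ?_
  rw [norm_mul, norm_pow]

theorem VfL_P_diff {f : ℕ → ℂ} {t C : ℝ} (h : ∀ n, ‖f n‖ * t ^ n ≤ C) {u : ℂ} (hu : ‖u‖ < t) :
    DifferentiableAt ℂ (VfL_P f) u := by
  obtain ⟨s, hs1, hs2⟩ := exists_between hu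
  have hs : 0 ≤ s := (norm_nonneg u).trans hs1.le
  have h1 : DifferentiableOn ℂ (fun w => ∑' n : ℕ, f n * w ^ (n + 1)) (Metric.ball 0 s) := by
    refine differentiableOn_tsum_of_summable_norm (VfL_norm_sum h hs hs2)
      (fun n => by fun_prop) Metric.isOpen_ball fun n w hw => ?_
    rw [norm_mul, norm_pow]
    have hw' : ‖w‖ ≤ s := (mem_ball_zero_iff.mp hw).le
    gcongr
  exact (h1 u (mem_ball_zero_iff.mpr hs1)).differentiableAt
    (Metric.isOpen_ball.mem_nhds (mem_ball_zero_iff.mpr hs1))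

theorem VfL_P_zero (f : ℕ → ℂ) : VfL_P f 0 = 0 := by
  unfold VfL_P
  simp

/-- summability and differentiability at `u`. -/
structure VfL_Good (f : ℕ → ℂ) (u : ℂ) : Prop where
  sm : Summable (fun n : ℕ => f n * u ^ (n + 1))
  df : DifferentiableAt ℂ (VfL_P f) u

theorem VfL_good_Gr {f : ℕ → ℂ} (hf : Gr f) {u : ℂ} (hu : ‖u‖ < 1) : VfL_Good f u := by
  obtain ⟨s, hs1, hs2⟩ := exists_between hu
  obtain ⟨C, hC⟩ := hf s ((norm_nonneg u).trans_lt hs1) hs2
  exact ⟨VfL_P_sum hC hs1, VfL_P_diff hC hs1⟩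

theorem VfL_good_Dc {μ : ℂ} {f : ℕ → ℂ} (hf : Dc μ f) {u : ℂ} (hu : ‖u‖ * ‖μ‖ < 1) :
    VfL_Good f u := by
  have h1 : ∃ s : ℝ, ‖u‖ < s ∧ s * ‖μ‖ < 1 := by
    have h2 : ContinuousWithinAt (fun s : ℝ => s * ‖μ‖) (Set.Ioi ‖u‖) ‖u‖ :=
      (continuous_id.mul continuous_const).continuousWithinAt
    have h3 : ∀ᶠ s in 𝓝[>] ‖u‖, s * ‖μ‖ < 1 := h2.eventually (gt_mem_nhds hu)
    obtain ⟨s, hs, hs'⟩ := (h3.and self_mem_nhdsWithin).exists
    exact ⟨s, hs', hs⟩
  obtain ⟨s, hs1, hs2⟩ := h1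
  obtain ⟨C, hC⟩ := hf s ((norm_nonneg u).trans_lt hs1) hs2
  exact ⟨VfL_P_sum hC hs1, VfL_P_diff hC hs1⟩

theorem VfL_sE {μ : ℂ} {f : ℕ → ℂ} {w : ℂ} (h1 : VfL_Good f w) (h2 : VfL_Good f (μ * w⁻¹)) :
    sE μ f w = VfL_P f w - VfL_P f (μ * w⁻¹) ∧
      Summable (fun n : ℕ => f n * (w ^ (n + 1) - (μ * w⁻¹) ^ (n + 1))) := by
  have h3 : (fun n : ℕ => f n * (w ^ (n + 1) - (μ * w⁻¹) ^ (n + 1))) =
      fun n : ℕ => f n * w ^ (n + 1) - f n * (μ * w⁻¹) ^ (n + 1) := by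
    funext n
    ring
  refine ⟨?_, ?_⟩
  · unfold sE VfL_P
    rw [h3, h1.sm.tsum_sub h2.sm]
  · rw [h3]
    exact h1.sm.sub h2.sm

theorem VfL_sY {μ y : ℂ} {f : ℕ → ℂ} {w : ℂ} (h1 : VfL_Good f w) (h2 : VfL_Good f (μ * w⁻¹)) :
    sY μ y f w = y + (VfL_P f w + VfL_P f (μ * w⁻¹)) ∧
      Summable (fun n : ℕ => f n * (w ^ (n + 1) + (μ * w⁻¹) ^ (n + 1))) := by
  have h3 : (fun n : ℕ => f n * (w ^ (n + 1) + (μ * w⁻¹) ^ (n + 1))) =
      fun n : ℕ => f n * w ^ (n + 1) + f n * (μ * w⁻¹) ^ (n + 1) := by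
    funext n
    ring
  refine ⟨?_, ?_⟩
  · unfold sY VfL_P
    rw [h3, h1.sm.tsum_add h2.sm]
  · rw [h3]
    exact h1.sm.add h2.sm

theorem VfL_inv_diff {μ w : ℂ} (hw : w ≠ 0) : DifferentiableAt ℂ (fun v : ℂ => μ * v⁻¹) w :=
  (differentiableAt_inv hw).const_mul μ

theorem VfH_good {s : ℝ} {f : ℕ → ℂ} (hf : Gs s f) {u : ℂ} (hu : ‖u‖ < s) : VfL_Good f u := by
  obtain ⟨C, hC⟩ := hf
  exact ⟨VfL_P_sum hC hu, VfL_P_diff hC hu⟩

theorem VfH_zw {μ w : ℂ} (hμ : μ ≠ 0) (hw : w ≠ 0) : zw μ (μ * w⁻¹) = zw μ w := by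
  unfold zw
  field_simp
  ring

theorem VfH_pw {μ w : ℂ} (hμ : μ ≠ 0) (hw : w ≠ 0) : pw μ (μ * w⁻¹) = -pw μ w := by
  unfold pw
  field_simp
  ring

theorem VfH_sE {μ w : ℂ} (hμ : μ ≠ 0) (hw : w ≠ 0) (f : ℕ → ℂ) : sE μ f (μ * w⁻¹) = -sE μ f w := by
  unfold sE
  rw [← tsum_neg]
  congr 1
  funext n
  have h1 : μ * (μ * w⁻¹)⁻¹ = w := by field_simp
  rw [h1]
  ring

/-- differentiability of `sE` in the annulus. -/
theorem VfH_diff {μ : ℂ} {s : ℝ} {f : ℕ → ℂ} (hf : Gs s f) {w : ℂ} (hw : w ≠ 0) (h1 : ‖w‖ < s)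
    (h2 : ‖μ * w⁻¹‖ < s) : DifferentiableAt ℂ (sE μ f) w := by
  have h3 : sE μ f =ᶠ[𝓝 w] fun v => VfL_P f v - VfL_P f (μ * v⁻¹) := by
    have hc : ContinuousAt (fun v : ℂ => ‖μ * v⁻¹‖) w :=
      ((continuousAt_const).mul (continuousAt_inv₀ hw)).norm
    filter_upwards [(isOpen_lt continuous_norm continuous_const).mem_nhds h1,
      hc.eventually (gt_mem_nhds h2)] with v hv1 hv2
    exact (VfL_sE (VfH_good hf hv1) (VfH_good hf hv2)).1
  refine DifferentiableAt.congr_of_eventuallyEq ?_ h3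
  refine (VfH_good hf h1).df.sub ?_
  exact DifferentiableAt.comp w (f := fun v : ℂ => μ * v⁻¹) (VfH_good hf h2).df (VfL_inv_diff hw)

/-- the integrand. -/
noncomputable def VfH_G (μ : ℂ) (f : ℕ → ℂ) (a b c : ℂ) (w : ℂ) : ℂ :=
  qp a b c (zw μ w) / pw μ w * sE μ f w ^ 2

theorem VfH_diffG {μ : ℂ} {s : ℝ} {f : ℕ → ℂ} (hf : Gs s f) (a b c : ℂ) {w : ℂ} (hw : w ≠ 0)
    (h1 : ‖w‖ < s) (h2 : ‖μ * w⁻¹‖ < s) (h3 : pw μ w ≠ 0) :
    DifferentiableAt ℂ (VfH_G μ f a b c) w := by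
  have h4 : DifferentiableAt ℂ (zw μ) w := by
    unfold zw
    exact differentiableAt_id.add (VfL_inv_diff hw)
  have h5 : DifferentiableAt ℂ (pw μ) w := by
    unfold pw
    exact differentiableAt_id.sub (VfL_inv_diff hw)
  have h6 : DifferentiableAt ℂ (fun w => qp a b c (zw μ w)) w := by
    unfold qp
    fun_prop
  exact (h6.div h5 h3).mul ((VfH_diff hf hw h1 h2).pow 2)

/-- continuity at the zeros of `pw`. -/
theorem VfH_contG {μ : ℂ} {s : ℝ} {f : ℕ → ℂ} (hf : Gs s f) (a b c : ℂ) (hμ : μ ≠ 0) {w : ℂ}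
    (hw : w ≠ 0) (h1 : ‖w‖ < s) (h2 : ‖μ * w⁻¹‖ < s) (h3 : pw μ w = 0) :
    ContinuousAt (VfH_G μ f a b c) w := by
  have hμw : μ = w * w := by
    unfold pw at h3
    have h4 : w = μ * w⁻¹ := sub_eq_zero.mp h3
    calc μ = μ * w⁻¹ * w := by rw [mul_assoc, inv_mul_cancel₀ hw, mul_one]
      _ = w * w := by rw [← h4]
  have hE0 : sE μ f w = 0 := by
    have h4 := VfH_sE hμ hw f
    have h5 : μ * w⁻¹ = w := by rw [hμw, mul_assoc, mul_inv_cancel₀ hw, mul_one]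
    rw [h5] at h4
    have h6 : (2 : ℂ) * sE μ f w = 0 := by linear_combination h4
    exact (mul_eq_zero.mp h6).resolve_left two_ne_zero
  have hd := VfH_diff hf hw h1 h2
  have hsl := hd.hasDerivAt.tendsto_slope
  have hE : Tendsto (sE μ f) (𝓝[≠] w) (𝓝 0) := by
    have h4 := hd.continuousAt.tendsto
    rw [hE0] at h4
    exact h4.mono_left nhdsWithin_le_nhds
  have hq : Tendsto (fun v => qp a b c (zw μ v)) (𝓝[≠] w) (𝓝 (qp a b c (zw μ w))) := by
    have h4 : ContinuousAt (fun v => qp a b c (zw μ v)) w := by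
      have h5 : ContinuousAt (zw μ) w := by
        unfold zw
        exact continuousAt_id.add (continuousAt_const.mul (continuousAt_inv₀ hw))
      unfold qp
      fun_prop
    exact h4.tendsto.mono_left nhdsWithin_le_nhds
  have hr : Tendsto (fun v : ℂ => v / (v + w)) (𝓝[≠] w) (𝓝 (w / (w + w))) := by
    have h4 : ContinuousAt (fun v : ℂ => v / (v + w)) w := by
      refine continuousAt_id.div (continuousAt_id.add continuousAt_const) ?_
      change w + w ≠ 0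
      rw [← two_mul]
      exact mul_ne_zero two_ne_zero hw
    exact h4.tendsto.mono_left nhdsWithin_le_nhds
  have hprod := ((hq.mul hE).mul hsl).mul hr
  rw [mul_zero, zero_mul, zero_mul] at hprod
  have hG0 : VfH_G μ f a b c w = 0 := by
    unfold VfH_G
    rw [hE0]
    simp
  rw [continuousAt_iff_punctured_nhds, hG0]
  refine hprod.congr' ?_
  have hne : ∀ᶠ v in 𝓝[≠] w, v ≠ w := self_mem_nhdsWithin
  have hne0 : ∀ᶠ v in 𝓝[≠] w, v ≠ 0 := nhdsWithin_le_nhds (isOpen_ne.mem_nhds hw)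
  have hnew : ∀ᶠ v in 𝓝[≠] w, v ≠ -w := by
    refine nhdsWithin_le_nhds (isOpen_ne.mem_nhds ?_)
    intro h4
    have h5 : (2 : ℂ) * w = 0 := by linear_combination h4
    exact hw ((mul_eq_zero.mp h5).resolve_left two_ne_zero)
  filter_upwards [hne, hne0, hnew] with v hv hv0 hv1
  have h4 : v - w ≠ 0 := sub_ne_zero.mpr hv
  have h5 : v + w ≠ 0 := fun h => hv1 (eq_neg_of_add_eq_zero_left h)
  have h6 : pw μ v = (v - w) * (v + w) / v := by
    unfold pw
    rw [hμw]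
    field_simp
    ring
  rw [slope_def_field, hE0, sub_zero]
  unfold VfH_G
  rw [h6]
  field_simp

theorem VfH_circle (F : ℂ → ℂ) {r : ℝ} (hr : 0 < r) :
    (∮ z in C(0, r), (z - 0)⁻¹ • F z) = I * ∫ t in (0 : ℝ)..(2 * π), F (r * exp (t * I)) := by
  rw [circleIntegral, ← intervalIntegral.integral_const_mul]
  refine intervalIntegral.integral_congr fun t _ => ?_
  have h1 : circleMap 0 r t = r * exp (t * I) := by rw [circleMap, zero_add]
  have h2 : (r : ℂ) * exp (t * I) ≠ 0 := mul_ne_zero (by exact_mod_cast hr.ne') (exp_ne_zero _)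
  simp only [deriv_circleMap, h1, sub_zero, smul_eq_mul]
  calc (r : ℂ) * exp (t * I) * I * (((r : ℂ) * exp (t * I))⁻¹ * F (r * exp (t * I)))
      = I * F (r * exp (t * I)) * (((r : ℂ) * exp (t * I)) * ((r : ℂ) * exp (t * I))⁻¹) := by ring
    _ = I * F (r * exp (t * I)) := by rw [mul_inv_cancel₀ h2, mul_one]

theorem VfH_pw_ne {μ : ℂ} (hμ : ‖μ‖ < 1) {w : ℂ} (hw : ‖w‖ = 1) : pw μ w ≠ 0 := by
  intro h
  have hw0 : w ≠ 0 := norm_pos_iff.mp (by rw [hw]; exact one_pos)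
  have h4 : w = μ * w⁻¹ := sub_eq_zero.mp h
  have h5 := congrArg norm h4
  rw [norm_mul, norm_inv, hw, inv_one, mul_one] at h5
  exact hμ.ne h5.symm

theorem VfH_ee (t : ℝ) : ‖ee t‖ = 1 := by
  unfold ee
  exact norm_exp_ofReal_mul_I t

theorem VfH_per (g : ℝ → ℂ) (hg : Function.Periodic g (2 * π)) (φ : ℝ) :
    ∫ t in (0 : ℝ)..(2 * π), g (φ - t) = ∫ t in (0 : ℝ)..(2 * π), g t := by
  rw [intervalIntegral.integral_comp_sub_left]
  have h1 := hg.intervalIntegral_add_eq (φ - 2 * π) 0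
  rw [zero_add] at h1
  rw [← h1]
  congr 1
  ring

theorem antis {μ : ℂ} (hμ : ‖μ‖ < 1) {s : ℝ} (hs : 1 < s) {f : ℕ → ℂ} (hf : Gs s f) (a b c : ℂ) :
    Continuous (fun t : ℝ => sE μ f (ee t)) ∧
    ∫ t in (0 : ℝ)..(2 * π), qp a b c (zw μ (ee t)) / pw μ (ee t) * sE μ f (ee t) ^ 2 = 0 := by
  have hee : Continuous ee := by
    unfold ee
    fun_prop
  have hee0 : ∀ t, ee t ≠ 0 := fun t => norm_pos_iff.mp (by rw [VfH_ee]; exact one_pos)
  refine ⟨?_, ?_⟩
  · rw [continuous_iff_continuousAt]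
    intro t
    have h1 : DifferentiableAt ℂ (sE μ f) (ee t) := by
      refine VfH_diff hf (hee0 t) (by rw [VfH_ee]; exact hs) ?_
      rw [norm_mul, norm_inv, VfH_ee, inv_one, mul_one]
      exact hμ.trans hs
    exact ContinuousAt.comp (f := ee) (g := sE μ f) h1.continuousAt hee.continuousAt
  change ∫ t in (0 : ℝ)..(2 * π), VfH_G μ f a b c (ee t) = 0
  have hI : ∀ r : ℝ, 0 < r → r = 1 → (∮ z in C(0, r), (z - 0)⁻¹ • VfH_G μ f a b c z) =
      I * ∫ t in (0 : ℝ)..(2 * π), VfH_G μ f a b c (ee t) := by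
    intro r hr hr1
    rw [VfH_circle _ hr, hr1]
    simp only [ofReal_one, one_mul]
    rfl
  by_cases hμ0 : μ = 0
  · subst hμ0
    have hz : ∀ w : ℂ, zw 0 w = w := fun w => by unfold zw; ring
    have hp : ∀ w : ℂ, pw 0 w = w := fun w => by unfold pw; ring
    have hE : ∀ w : ℂ, ‖w‖ < s → sE 0 f w = VfL_P f w := by
      intro w hw
      have h2 : ‖(0 : ℂ) * w⁻¹‖ < s := by rw [zero_mul, norm_zero]; linarith
      rw [(VfL_sE (VfH_good hf hw) (VfH_good hf h2)).1, zero_mul, VfL_P_zero, sub_zero]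
    have hd : ∀ w : ℂ, w ≠ 0 → ‖w‖ < s → DifferentiableAt ℂ (VfH_G 0 f a b c) w := by
      intro w hw0 hw
      refine VfH_diffG hf a b c hw0 hw (by rw [zero_mul, norm_zero]; linarith) ?_
      rw [hp]
      exact hw0
    have hlim : Tendsto (VfH_G 0 f a b c) (𝓝[{0}ᶜ] 0) (𝓝 0) := by
      have h0 : ‖(0 : ℂ)‖ < s := by rw [norm_zero]; linarith
      have hdf := (VfH_good hf h0).df
      have hsl := hdf.hasDerivAt.tendsto_slope
      have hP : Tendsto (VfL_P f) (𝓝[≠] 0) (𝓝 0) := by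
        have h4 := hdf.continuousAt.tendsto
        rw [VfL_P_zero] at h4
        exact h4.mono_left nhdsWithin_le_nhds
      have hq : Tendsto (fun v => qp a b c v) (𝓝[≠] 0) (𝓝 (qp a b c 0)) := by
        have h4 : ContinuousAt (fun v => qp a b c v) 0 := by
          unfold qp
          fun_prop
        exact h4.tendsto.mono_left nhdsWithin_le_nhds
      have hprod := (hq.mul hP).mul hsl
      rw [mul_zero, zero_mul] at hprod
      refine hprod.congr' ?_
      have hne : ∀ᶠ v in 𝓝[≠] (0 : ℂ), v ≠ 0 := self_mem_nhdsWithin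
      have hns : ∀ᶠ v in 𝓝[≠] (0 : ℂ), ‖v‖ < s :=
        nhdsWithin_le_nhds ((isOpen_lt continuous_norm continuous_const).mem_nhds h0)
      filter_upwards [hne, hns] with v hv hvs
      rw [slope_def_field, VfL_P_zero, sub_zero, sub_zero]
      unfold VfH_G
      rw [hz, hp, hE v hvs]
      field_simp
    have h1 := circleIntegral_sub_center_inv_smul_of_differentiable_on_off_countable_of_tendsto
      (c := (0 : ℂ)) (R := 1) one_pos (f := VfH_G 0 f a b c) (y := 0) (s := ∅) countable_empty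
      (fun w hw => (hd w (fun h => hw.2 (by rw [h]; exact mem_singleton 0)) (by
        have := mem_closedBall_zero_iff.mp hw.1
        linarith)).continuousAt.continuousWithinAt)
      (fun w hw => hd w (fun h => hw.1.2 (by rw [h]; exact mem_singleton 0)) (by
        have := mem_ball_zero_iff.mp hw.1.1
        linarith)) hlim
    rw [hI 1 one_pos rfl, smul_zero] at h1
    exact (mul_eq_zero.mp h1).resolve_left I_ne_zero
  · have hr : 0 < ‖μ‖ := norm_pos_iff.mpr hμ0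
    have hbd : ∀ w : ℂ, ‖μ‖ ≤ ‖w‖ → w ≠ 0 ∧ ‖μ * w⁻¹‖ < s := by
      intro w hw
      have h2 : 0 < ‖w‖ := hr.trans_le hw
      refine ⟨norm_pos_iff.mp h2, ?_⟩
      rw [norm_mul, norm_inv, ← div_eq_mul_inv]
      exact ((div_le_one h2).mpr hw).trans_lt hs
    have hcount : ({w : ℂ | pw μ w = 0}).Countable := by
      have h2 : {w : ℂ | pw μ w = 0} ⊆ {w : ℂ | w ^ 2 = μ} ∪ {0} := by
        intro w hw
        by_cases h0 : w = 0
        · exact Or.inr h0
        · left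
          have h4 : w = μ * w⁻¹ := sub_eq_zero.mp hw
          change w ^ 2 = μ
          rw [sq]
          nth_rewrite 1 [h4]
          rw [mul_assoc, inv_mul_cancel₀ h0, mul_one]
      refine Set.Countable.mono h2 (Set.Countable.union ?_ (countable_singleton 0))
      have h3 : {w : ℂ | w ^ 2 = μ}.Finite := by
        have h5 : {w : ℂ | w ^ 2 = μ} ⊆ ((Polynomial.X ^ 2 - Polynomial.C μ : Polynomial ℂ).rootSet ℂ) := by
          intro w hw
          rw [Polynomial.mem_rootSet]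
          refine ⟨(Polynomial.monic_X_pow_sub_C μ two_ne_zero).ne_zero, ?_⟩
          simp only [map_sub, map_pow, Polynomial.aeval_X, Polynomial.aeval_C, Algebra.algebraMap_self,
            RingHom.id_apply]
          rw [hw]
          exact sub_self μ
        exact (Polynomial.rootSet_finite _ ℂ).subset h5
      exact h3.countable
    have h1 := circleIntegral_sub_center_inv_smul_eq_of_differentiable_on_annulus_off_countable
      (c := (0 : ℂ)) hr hμ.le (f := VfH_G μ f a b c) hcount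
      (fun w hw => by
        have h2 : ‖w‖ ≤ 1 := mem_closedBall_zero_iff.mp hw.1
        have h3 : ‖μ‖ ≤ ‖w‖ := not_lt.mp fun h => hw.2 (mem_ball_zero_iff.mpr h)
        obtain ⟨hw0, h4⟩ := hbd w h3
        by_cases h5 : pw μ w = 0
        · exact (VfH_contG hf a b c hμ0 hw0 (h2.trans_lt hs) h4 h5).continuousWithinAt
        · exact (VfH_diffG hf a b c hw0 (h2.trans_lt hs) h4 h5).continuousAt.continuousWithinAt)
      (fun w hw => by
        have h2 : ‖w‖ < 1 := mem_ball_zero_iff.mp hw.1.1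
        have h3 : ‖μ‖ ≤ ‖w‖ := (not_le.mp fun h => hw.1.2 (mem_closedBall_zero_iff.mpr h)).le
        obtain ⟨hw0, h4⟩ := hbd w h3
        exact VfH_diffG hf a b c hw0 (h2.trans hs) h4 hw.2)
    rw [hI 1 one_pos rfl, VfH_circle _ hr] at h1
    have h2 := mul_left_cancel₀ I_ne_zero h1
    have h3 : ∫ t in (0 : ℝ)..(2 * π), VfH_G μ f a b c (‖μ‖ * exp (t * I)) =
        ∫ t in (0 : ℝ)..(2 * π), VfH_G μ f a b c (‖μ‖ * exp (((arg μ - t : ℝ) : ℂ) * I)) := by
      symm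
      refine VfH_per (fun t : ℝ => VfH_G μ f a b c (‖μ‖ * exp (t * I))) ?_ (arg μ)
      intro t
      change VfH_G μ f a b c (‖μ‖ * exp (((t + 2 * π : ℝ) : ℂ) * I)) = VfH_G μ f a b c (‖μ‖ * exp ((t : ℂ) * I))
      congr 2
      rw [ofReal_add, add_mul, exp_add]
      have h4 : exp (((2 * π : ℝ) : ℂ) * I) = 1 := by
        rw [ofReal_mul, ofReal_ofNat]
        exact exp_two_pi_mul_I
      rw [h4, mul_one]
    have h4 : ∀ t : ℝ, VfH_G μ f a b c (‖μ‖ * exp (((arg μ - t : ℝ) : ℂ) * I)) =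
        -VfH_G μ f a b c (ee t) := by
      intro t
      have h5 : (‖μ‖ : ℂ) * exp (((arg μ - t : ℝ) : ℂ) * I) = μ * (ee t)⁻¹ := by
        rw [ofReal_sub, sub_mul, exp_sub, div_eq_mul_inv, ← mul_assoc, norm_mul_exp_arg_mul_I]
        rfl
      rw [h5]
      unfold VfH_G
      rw [VfH_zw hμ0 (hee0 t), VfH_pw hμ0 (hee0 t), VfH_sE hμ0 (hee0 t), neg_sq, div_neg, neg_mul]
    rw [h3, intervalIntegral.integral_congr (fun t _ => h4 t), intervalIntegral.integral_neg] at h2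
    have h6 : (2 : ℂ) * ∫ t in (0 : ℝ)..(2 * π), VfH_G μ f a b c (ee t) = 0 := by
      linear_combination h2
    exact (mul_eq_zero.mp h6).resolve_left two_ne_zero

end NV1
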